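import Pool.Agent.H39WZ.Pow

/-!
# The powers `x^(γ_j)` of almost all algebraic numbers `x`, with all conjugates

Let `β` be an irrational algebraic number of degree `d` and `γ_j = β^j`, `j = 1, …, d - 1`; more generally let
`γ_1, …, γ_D` be any complex numbers such that `1, γ_1, …, γ_D` are linearly independent over `ℚ`. The question is whether
the numbers `x^(γ_j) = exp(γ_j log x)` are algebraically independent for all algebraic `x ≠ 0, 1`. Here is a metric answer
for the algebraic numbers `x` of a given degree `g`, for the principal logarithm: for almost all integral polynomials of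
degree `g` the following holds for all their roots `x_1, …, x_r` outside the half-line `x ≤ 0` (for an irreducible
polynomial these are conjugate algebraic numbers) together: the `D r` numbers `x_i^(γ_j)` satisfy no relation of degree
`≤ k` with coefficients of height `≤ T ^ k`, where `T` is the height of the polynomial and `k = ω(T) → ∞`. The coefficients
may also contain arbitrary given complex numbers `ξ_0, ξ_1, …` (for example the powers of `β`).

Proof: the functions `x, x^(γ_1), …, x^(γ_D)` are algebraically independent over the complex numbers, and we apply the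
theorem `Pool.Agent.X255.RH.main_all` on the values of such functions at all roots of almost all polynomials.
-/

set_option autoImplicit false

open Polynomial Filter Topology NumberField

namespace Pool.Agent.Results.MP_452a87_nt.AlmostAllPowers

/-- `1, γ_1, …, γ_D` are linearly independent over the rational numbers. -/
def Independent {D : ℕ} (γ : Fin D → ℂ) : Prop :=
  ∀ (m₀ : ℤ) (m : Fin D → ℤ), (m₀ : ℂ) + ∑ k, (m k : ℂ) * γ k = 0 → m₀ = 0 ∧ m = 0

/-- The integral vectors `a = (a_0, …, a_g)` with `|a_i| ≤ T`. -/
noncomputable def box (g T : ℕ) : Finset (Fin (g + 1) → ℤ) := Fintype.piFinset fun _ => Finset.Icc (-(T : ℤ)) (T : ℤ)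

/-- The polynomial `a_0 + a_1 x + … + a_g x^g`. -/
noncomputable def poly {g : ℕ} (a : Fin (g + 1) → ℤ) : ℂ[X] := ∑ i, C (a i : ℂ) * X ^ (i : ℕ)

/-- The roots which are not real numbers `≤ 0` of the polynomial with the coefficients `a`. -/
noncomputable def roots {g : ℕ} (a : Fin (g + 1) → ℤ) : Finset ℂ := by
  classical exact (poly a).roots.toFinset.filter fun z => z ∈ Complex.slitPlane

/-- The numbers `x q` satisfy no relation of degree at most `k` in each of them with coefficients `∑_{b < k} ξ_b c_b`,
where the `c_b` are integers of a number field of degree at most `k` all of whose conjugates are at most `T ^ k`, except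
the relations all of whose coefficients vanish. -/
def NoRelation {Q : Type} [Fintype Q] [DecidableEq Q] (ξ : ℕ → ℂ) (k : ℕ) (T : ℝ) (x : Q → ℂ) : Prop :=
  ∀ (F : Type) [Field F] [NumberField F], Module.finrank ℚ F ≤ k → ∀ (io : F →+* ℂ)
    (c : (Q → Fin (k + 1)) → Fin k → 𝓞 F), (∀ l b (φ : F →+* ℂ), ‖φ (c l b : F)‖ ≤ T ^ k) →
    ∑ l, (∑ b : Fin k, ξ b * io (c l b : F)) * ∏ q, x q ^ (l q : ℕ) = 0 → ∀ l, ∑ b : Fin k, ξ b * io (c l b : F) = 0

/-- The polynomial with the coefficients `a` has degree `g` and simple roots, and there is no relation between the numbers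
`x^(γ_j) = exp(γ_j log x)` for all its roots `x` outside the half-line `x ≤ 0` together. -/
def Good {D : ℕ} (γ : Fin D → ℂ) {g : ℕ} (ξ : ℕ → ℂ) (k : ℕ) (T : ℝ) (a : Fin (g + 1) → ℤ) : Prop :=
  a (Fin.last g) ≠ 0 ∧ (poly a).Separable ∧
    NoRelation ξ k T fun q : {x // x ∈ roots a} × Fin D => Complex.exp (γ q.2 * Complex.log q.1)

open scoped Classical in
/-- **The theorem.** Let `1, γ_1, …, γ_D` be linearly independent over the rational numbers. For every degree `g ≥ 1` and
all complex numbers `ξ_0, ξ_1, …` (for instance `ξ_0 = 1` and all others zero) there is a function `ω(T) → ∞` such that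
among the `(2 T + 1)^(g + 1)` integral polynomials of degree at most `g` with coefficients at most `T` at most the
proportion `1 / ω(T)` is not good. -/
theorem result {D : ℕ} (γ : Fin D → ℂ) (hγ : Independent γ) (g : ℕ) (hg : 0 < g) (ξ : ℕ → ℂ) :
    ∃ ω : ℕ → ℕ, Tendsto ω atTop atTop ∧ Monotone ω ∧ ∀ T : ℕ,
      ω T * ((box g T).filter fun a => ¬ Good γ ξ (ω T) T a).card ≤ (box g T).card := by
  obtain ⟨hfa, hfi⟩ := Pool.Agent.H39WZ.pow_indep hγ
  have hpre : IsPreconnected Complex.slitPlane :=
    (Complex.starConvex_one_slitPlane.isPathConnected Complex.one_mem_slitPlane).isConnected.isPreconnected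
  obtain ⟨ω, h1, h2, h3⟩ := Pool.Agent.X255.RH.main_all
    (f := fun (j : Fin D) x => Complex.exp (γ j * Complex.log x)) hg hpre Complex.isOpen_slitPlane
    (fun _ => Complex.slitPlane) (fun _ => Pool.Agent.X255.RH.tame_slit) hfa
    (Pool.Agent.X255.RH.indep_of_aindepS hfi) ξ
  refine ⟨ω, h1, h2, fun T => ?_⟩
  have key := h3 T
  have hsub : ((box g T).filter fun a => ¬ Good γ ξ (ω T) T a) ⊆
      ((Pool.Agent.X255.RH.bx g T).filter fun a => ¬ Pool.Agent.X255.RH.Good Complex.slitPlane
        (fun (j : Fin D) x => Complex.exp (γ j * Complex.log x)) ξ (ω T) T a) := by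
    intro a ha
    rw [Finset.mem_filter] at ha ⊢
    exact ⟨ha.1, fun hgood => ha.2 ⟨hgood.1, hgood.2.1, hgood.2.2⟩⟩
  exact le_trans (Nat.mul_le_mul_left _ (Finset.card_le_card hsub)) key

end Pool.Agent.Results.MP_452a87_nt.AlmostAllPowers
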